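import Pool.Agent.Helper82.BR.St3

set_option autoImplicit false

namespace Pool.Agent.Helper89.BR

open Pool.Agent.Helper82.BR

private lemma no8 (D : Finset ℂ) (hD : D.card ≤ 7) (l : List ℂ) (hl : l.Nodup) (h8 : l.length = 8)
    (hm : ∀ a ∈ l, a ∈ D) : False := by
  classical
  have h1 : l.toFinset.card = 8 := by rw [List.toFinset_card_of_nodup hl, h8]
  have h2 : l.toFinset ⊆ D := fun a ha => hm a (List.mem_toFinset.1 ha)
  have h3 := Finset.card_le_card h2
  omega

private lemma mem7 (D : Finset ℂ) (hD : D.card ≤ 7) (l : List ℂ) (hl : l.Nodup) (h7 : l.length = 7)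
    (hm : ∀ a ∈ l, a ∈ D) (x : ℂ) (hx : x ∈ D) : x ∈ l := by
  by_contra h
  refine no8 D hD (x :: l) (List.nodup_cons.2 ⟨h, hl⟩) (by simp [h7]) ?_
  intro a ha
  rcases List.mem_cons.1 ha with rfl | ha
  · exact hx
  · exact hm a ha

section

variable {w : ℂ} (hw : w ^ 2 = w - 1)
include hw

private lemma w3 : w ^ 3 = -1 := by linear_combination (w + 1) * hw

private lemma w6 : w ^ 6 = 1 := by
  have h := w3 hw
  linear_combination (w ^ 3 - 1) * h

private lemma wne0 : w ≠ 0 := by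
  rintro rfl
  norm_num at hw

private lemma wne1 : w ≠ 1 := by
  rintro rfl
  norm_num at hw

private lemma w2ne1 : w ^ 2 ≠ 1 := by
  intro h
  have h3 := w3 hw
  have : w = -1 := by linear_combination (-w) * h + h3
  rw [this] at hw
  norm_num at hw

private lemma sixth (Q : ℂ) (h : Q ^ 6 = 1) : Q = 1 ∨ Q = -1 ∨ Q = w ∨ Q = -w ∨ Q = w ^ 2 ∨ Q = -w ^ 2 := by
  have h3 := w3 hw
  have e : (Q - 1) * ((Q + 1) * ((Q - w) * ((Q + w) * ((Q - w ^ 2) * (Q + w ^ 2))))) = 0 := by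
    have e1 : (Q - 1) * ((Q + 1) * ((Q - w) * ((Q + w) * ((Q - w ^ 2) * (Q + w ^ 2))))) =
        (Q ^ 2 - 1) * (Q ^ 4 - (w ^ 2 + w ^ 3 * w) * Q ^ 2 + (w ^ 3) ^ 2) := by ring
    rw [e1, h3, hw]
    linear_combination h
  rcases mul_eq_zero.1 e with e | e
  · exact Or.inl (by linear_combination e)
  rcases mul_eq_zero.1 e with e | e
  · exact Or.inr (Or.inl (by linear_combination e))
  rcases mul_eq_zero.1 e with e | e
  · exact Or.inr (Or.inr (Or.inl (by linear_combination e)))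
  rcases mul_eq_zero.1 e with e | e
  · exact Or.inr (Or.inr (Or.inr (Or.inl (by linear_combination e))))
  rcases mul_eq_zero.1 e with e | e
  · exact Or.inr (Or.inr (Or.inr (Or.inr (Or.inl (by linear_combination e)))))
  · exact Or.inr (Or.inr (Or.inr (Or.inr (Or.inr (by linear_combination e)))))

/-- the chain `1, w, w²` -/
private lemma chainA (D : Finset ℂ) (hD : D.card ≤ 7) (R : ℂ) (hR : R ≠ 0) (hR6 : R ^ 6 ≠ 1)
    (h1 : (1 : ℂ) ∈ D) (h2 : w ∈ D) (h3 : w ^ 2 ∈ D) (h4 : w ^ 2 * w ∈ D) (h5 : (w ^ 2) ^ 2 ∈ D)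
    (h6 : R ∈ D) (h7 : R * w ∈ D) (h8 : w ^ 2 * R ∈ D) : False := by
  have k3 := w3 hw
  have k6 := w6 hw
  have n0 := wne0 hw
  have n1 := wne1 hw
  have n2 := w2ne1 hw
  have c : ∀ a b : ℂ, a ^ 6 = 1 → b ^ 6 = 1 → a ≠ R * b := by
    intro a b ha hb h
    apply hR6
    have : a ^ 6 = R ^ 6 * b ^ 6 := by rw [h]; ring
    rw [ha, hb] at this
    linear_combination -this
  have p0 : (1 : ℂ) ^ 6 = 1 := one_pow 6
  have p2 : (w ^ 2) ^ 6 = 1 := by linear_combination (w ^ 6 + 1) * k6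
  have p3 : (w ^ 2 * w) ^ 6 = 1 := by
    have : (w ^ 2 * w) ^ 6 = (w ^ 6) ^ 3 := by ring
    rw [this, k6, one_pow]
  have p4 : ((w ^ 2) ^ 2) ^ 6 = 1 := by
    have : ((w ^ 2) ^ 2) ^ 6 = (w ^ 6) ^ 4 := by ring
    rw [this, k6, one_pow]
  refine no8 D hD [1, w, w ^ 2, w ^ 2 * w, (w ^ 2) ^ 2, R, R * w, w ^ 2 * R] ?_ rfl ?_
  · simp only [List.nodup_cons, List.mem_cons, List.not_mem_nil, or_false, not_or, List.nodup_nil, and_true,
      not_false_eq_true]
    refine ⟨⟨?_, ?_, ?_, ?_, ?_, ?_, ?_⟩, ⟨?_, ?_, ?_, ?_, ?_, ?_⟩, ⟨?_, ?_, ?_, ?_, ?_⟩, ⟨?_, ?_, ?_, ?_⟩,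
      ⟨?_, ?_, ?_⟩, ⟨?_, ?_⟩, ?_⟩
    · exact fun h => n1 h.symm
    · exact fun h => n2 h.symm
    · intro h
      have : (1 : ℂ) = -1 := by linear_combination h + k3
      norm_num at this
    · intro h
      have : w = -1 := by linear_combination h + w * k3
      rw [this] at hw
      norm_num at hw
    · intro h
      exact c 1 1 p0 p0 (by rw [mul_one]; exact h)
    · exact c 1 w p0 k6
    · intro h
      exact c 1 (w ^ 2) p0 p2 (by rw [mul_comm R]; exact h)
    · intro h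
      have : w * (w - 1) = 0 := by linear_combination -h
      rcases mul_eq_zero.1 this with h' | h'
      · exact n0 h'
      · exact n1 (by linear_combination h')
    · intro h
      have : w * (w ^ 2 - 1) = 0 := by linear_combination -h
      rcases mul_eq_zero.1 this with h' | h'
      · exact n0 h'
      · exact n2 (by linear_combination h')
    · intro h
      have : w = 0 := by linear_combination (1 / 2 : ℂ) * h + (w / 2) * k3
      exact n0 this
    · intro h
      exact c w 1 k6 p0 (by rw [mul_one]; exact h)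
    · exact c w w k6 k6
    · intro h
      exact c w (w ^ 2) k6 p2 (by rw [mul_comm R]; exact h)
    · intro h
      have : w ^ 2 * (w - 1) = 0 := by linear_combination -h
      rcases mul_eq_zero.1 this with h' | h'
      · exact n0 (pow_eq_zero_iff (two_ne_zero)|>.1 h')
      · exact n1 (by linear_combination h')
    · intro h
      have : w ^ 2 * (w ^ 2 - 1) = 0 := by linear_combination -h
      rcases mul_eq_zero.1 this with h' | h'
      · exact n0 (pow_eq_zero_iff (two_ne_zero)|>.1 h')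
      · exact n2 (by linear_combination h')
    · intro h
      exact c (w ^ 2) 1 p2 p0 (by rw [mul_one]; exact h)
    · exact c (w ^ 2) w p2 k6
    · intro h
      exact c (w ^ 2) (w ^ 2) p2 p2 (by rw [mul_comm R]; exact h)
    · intro h
      have : w ^ 3 * (w - 1) = 0 := by linear_combination -h
      rcases mul_eq_zero.1 this with h' | h'
      · exact n0 (pow_eq_zero_iff (three_ne_zero)|>.1 h')
      · exact n1 (by linear_combination h')
    · intro h
      exact c (w ^ 2 * w) 1 p3 p0 (by rw [mul_one]; exact h)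
    · exact c (w ^ 2 * w) w p3 k6
    · intro h
      exact c (w ^ 2 * w) (w ^ 2) p3 p2 (by rw [mul_comm R]; exact h)
    · intro h
      exact c ((w ^ 2) ^ 2) 1 p4 p0 (by rw [mul_one]; exact h)
    · exact c ((w ^ 2) ^ 2) w p4 k6
    · intro h
      exact c ((w ^ 2) ^ 2) (w ^ 2) p4 p2 (by rw [mul_comm R]; exact h)
    · intro h
      have : R * (w - 1) = 0 := by linear_combination -h
      rcases mul_eq_zero.1 this with h' | h'
      · exact hR h'
      · exact n1 (by linear_combination h')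
    · intro h
      have : R * (w ^ 2 - 1) = 0 := by linear_combination -h
      rcases mul_eq_zero.1 this with h' | h'
      · exact hR h'
      · exact n2 (by linear_combination h')
    · intro h
      have : R * (w * (w - 1)) = 0 := by linear_combination -h
      rcases mul_eq_zero.1 this with h' | h'
      · exact hR h'
      rcases mul_eq_zero.1 h' with h' | h'
      · exact n0 h'
      · exact n1 (by linear_combination h')
  · intro a ha
    simp only [List.mem_cons, List.not_mem_nil, or_false] at ha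
    rcases ha with rfl | rfl | rfl | rfl | rfl | rfl | rfl | rfl <;> assumption

/-- the chain `w⁻¹, 1, w` -/
private lemma chainB (D : Finset ℂ) (hD : D.card ≤ 7) (R : ℂ) (hR : R ≠ 0) (hR6 : R ^ 6 ≠ 1)
    (h1 : (1 : ℂ) ∈ D) (h2 : w ∈ D) (h3 : w ^ 2 ∈ D) (h4 : -w ^ 2 ∈ D) (h5 : (-w ^ 2) ^ 2 ∈ D)
    (h6 : R ∈ D) (h7 : R * w ∈ D) (h8 : -w ^ 2 * R ∈ D) : False := by
  classical
  have k3 := w3 hw
  have k6 := w6 hw
  have n0 := wne0 hw
  have m : ∀ x ∈ D, ∀ y, y = x * w ^ 2 → y ∈ D.image fun z => z * w ^ 2 := by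
    rintro x hx y rfl
    exact Finset.mem_image_of_mem _ hx
  refine chainA hw (D.image fun z => z * w ^ 2) (Finset.card_image_le.trans hD) (R * w) (mul_ne_zero hR n0) ?_
    (m _ h5 _ ?_) (m _ h4 _ ?_) (m _ h1 _ (by ring)) (m _ h2 _ (by ring)) (m _ h3 _ (by ring)) (m _ h8 _ ?_)
    (m _ h6 _ (by ring)) (m _ h7 _ (by ring))
  · intro h
    apply hR6
    have : (R * w) ^ 6 = R ^ 6 * w ^ 6 := by ring
    rw [this, k6, mul_one] at h
    exact h
  · linear_combination (-1 : ℂ) * k6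
  · linear_combination w * k3
  · linear_combination (R * w) * k3

/-- `R = Q w` -/
private lemma adj (D : Finset ℂ) (hD : D.card ≤ 7) (Q : ℂ) (hQ : Q ≠ 0) (hQ6 : Q ^ 6 ≠ 1)
    (h1 : (1 : ℂ) ∈ D) (h2 : w ∈ D) (h3 : w ^ 2 ∈ D) (h4 : Q ∈ D) (h5 : Q * w ∈ D) (h6 : Q * w * w ∈ D)
    (h7 : Q ^ 2 ∈ D) (h8 : Q * (Q * w) ∈ D) : Q ^ 2 = w ∨ Q ^ 2 * w = 1 := by
  have k3 := w3 hw
  have k6 := w6 hw
  have n0 := wne0 hw
  have n1 := wne1 hw
  have n2 := w2ne1 hw
  by_contra hcon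
  rw [not_or] at hcon
  obtain ⟨c1, c2⟩ := hcon
  have p0 : (1 : ℂ) ^ 6 = 1 := one_pow 6
  have p2 : (w ^ 2) ^ 6 = 1 := by linear_combination (w ^ 6 + 1) * k6
  have c : ∀ a b : ℂ, a ^ 6 = 1 → b ^ 6 = 1 → a ≠ Q * b := by
    intro a b ha hb h
    apply hQ6
    have : a ^ 6 = Q ^ 6 * b ^ 6 := by rw [h]; ring
    rw [ha, hb] at this
    linear_combination -this
  have d : ∀ a b : ℂ, a ^ 6 = 1 → b ^ 6 = 1 → Q * a ≠ Q * (Q * b) := by
    intro a b ha hb h
    exact c a b ha hb (mul_left_cancel₀ hQ h)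
  have z1 : Q ^ 2 ≠ 1 := fun h => hQ6 (by linear_combination (Q ^ 4 + Q ^ 2 + 1) * h)
  have z2 : Q ^ 2 ≠ w ^ 2 := fun h => hQ6 (by
    linear_combination (Q ^ 4 + Q ^ 2 * w ^ 2 + w ^ 4) * h + k6)
  refine no8 D hD [1, w, w ^ 2, Q, Q * w, Q * w * w, Q ^ 2, Q * (Q * w)] ?_ rfl ?_
  · simp only [List.nodup_cons, List.mem_cons, List.not_mem_nil, or_false, not_or, List.nodup_nil, and_true,
      not_false_eq_true]
    refine ⟨⟨?_, ?_, ?_, ?_, ?_, ?_, ?_⟩, ⟨?_, ?_, ?_, ?_, ?_, ?_⟩, ⟨?_, ?_, ?_, ?_, ?_⟩, ⟨?_, ?_, ?_, ?_⟩,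
      ⟨?_, ?_, ?_⟩, ⟨?_, ?_⟩, ?_⟩
    · exact fun h => n1 h.symm
    · exact fun h => n2 h.symm
    · intro h
      exact c 1 1 p0 p0 (by rw [mul_one]; exact h)
    · exact c 1 w p0 k6
    · intro h
      exact c 1 (w ^ 2) p0 p2 (by rw [h]; ring)
    · exact fun h => z1 h.symm
    · intro h
      exact c2 (by linear_combination -h)
    · intro h
      have : w * (w - 1) = 0 := by linear_combination -h
      rcases mul_eq_zero.1 this with h' | h'
      · exact n0 h'
      · exact n1 (by linear_combination h')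
    · intro h
      exact c w 1 k6 p0 (by rw [mul_one]; exact h)
    · exact c w w k6 k6
    · intro h
      refine c w (w ^ 2) k6 p2 ?_
      linear_combination h
    · exact fun h => c1 h.symm
    · intro h
      have : w * (Q ^ 2 - 1) = 0 := by linear_combination -h
      rcases mul_eq_zero.1 this with h' | h'
      · exact n0 h'
      · exact z1 (by linear_combination h')
    · intro h
      exact c (w ^ 2) 1 p2 p0 (by rw [mul_one]; exact h)
    · exact c (w ^ 2) w p2 k6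
    · intro h
      refine c (w ^ 2) (w ^ 2) p2 p2 ?_
      linear_combination h
    · exact fun h => z2 h.symm
    · intro h
      have : w * (Q ^ 2 - w) = 0 := by linear_combination -h
      rcases mul_eq_zero.1 this with h' | h'
      · exact n0 h'
      · exact c1 (by linear_combination h')
    · intro h
      have : Q * (w - 1) = 0 := by linear_combination -h
      rcases mul_eq_zero.1 this with h' | h'
      · exact hQ h'
      · exact n1 (by linear_combination h')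
    · intro h
      have : Q * (w ^ 2 - 1) = 0 := by linear_combination -h
      rcases mul_eq_zero.1 this with h' | h'
      · exact hQ h'
      · exact n2 (by linear_combination h')
    · intro h
      exact d 1 1 p0 p0 (by linear_combination h)
    · intro h
      exact d 1 w p0 k6 (by linear_combination h)
    · intro h
      have : Q * w * (w - 1) = 0 := by linear_combination -h
      rcases mul_eq_zero.1 this with h' | h'
      · exact mul_ne_zero hQ n0 h'
      · exact n1 (by linear_combination h')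
    · intro h
      exact d w 1 k6 p0 (by linear_combination h)
    · intro h
      exact d w w k6 k6 (by linear_combination h)
    · intro h
      exact d (w ^ 2) 1 p2 p0 (by linear_combination h)
    · intro h
      exact d (w ^ 2) w p2 k6 (by linear_combination h)
    · intro h
      have : Q ^ 2 * (w - 1) = 0 := by linear_combination -h
      rcases mul_eq_zero.1 this with h' | h'
      · exact hQ (pow_eq_zero_iff (two_ne_zero)|>.1 h')
      · exact n1 (by linear_combination h')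
  · intro a ha
    simp only [List.mem_cons, List.not_mem_nil, or_false] at ha
    rcases ha with rfl | rfl | rfl | rfl | rfl | rfl | rfl | rfl <;> assumption

private def P (w Q R a : ℂ) : Prop := a = 1 ∨ a = w ∨ a = Q ∨ a = R

omit hw in
private lemma Pc (Q R a : ℂ) (h : P w Q R a) : P w R Q a := by
  rcases h with h | h | h | h
  · exact Or.inl h
  · exact Or.inr (Or.inl h)
  · exact Or.inr (Or.inr (Or.inr h))
  · exact Or.inr (Or.inr (Or.inl h))

private def Goal (w Q R : ℂ) : Prop := ∃ x ρ : ℂ, P w Q R x ∧ P w Q R (x * ρ) ∧ P w Q R (x * ρ ^ 2) ∧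
  P w Q R (x * ρ ^ 3) ∧ (ρ ^ 2 = w ∨ ρ ^ 3 = w)

omit hw in
private lemma Gc (Q R : ℂ) (h : Goal w Q R) : Goal w R Q := by
  obtain ⟨x, ρ, h1, h2, h3, h4, h5⟩ := h
  exact ⟨x, ρ, Pc _ _ _ h1, Pc _ _ _ h2, Pc _ _ _ h3, Pc _ _ _ h4, h5⟩

private lemma caseA (D : Finset ℂ) (hD : D.card ≤ 7) (Q R : ℂ) (hR : R ≠ 0) (hR6 : R ^ 6 ≠ 1) (hQ6 : Q ^ 6 = 1)
    (h1 : (1 : ℂ) ∈ D) (h2 : w ∈ D) (h3 : w ^ 2 ∈ D) (h4 : Q ∈ D) (h5 : Q * w ∈ D) (h6 : R ∈ D) (h7 : R * w ∈ D)
    (h8 : Q ^ 2 ∈ D) (h9 : Q * R ∈ D) (n1 : Q ≠ 1) (n2 : Q ≠ w) (n3 : Q ≠ -1) (n4 : Q ≠ -w) : False := by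
  rcases sixth hw Q hQ6 with h | h | h | h | h | h
  · exact n1 h
  · exact n3 h
  · exact n2 h
  · exact n4 h
  · subst h
    exact chainA hw D hD R hR hR6 h1 h2 h3 h5 h8 h6 h7 h9
  · subst h
    exact chainB hw D hD R hR hR6 h1 h2 h3 h4 h8 h6 h7 h9

private lemma caseB (D : Finset ℂ) (hD : D.card ≤ 7) (Q : ℂ) (hQ : Q ≠ 0) (hQ6 : Q ^ 6 ≠ 1)
    (h1 : (1 : ℂ) ∈ D) (h2 : w ∈ D) (h3 : w ^ 2 ∈ D) (h4 : Q ∈ D) (h5 : Q * w ∈ D) (h6 : Q * w * w ∈ D)
    (h7 : Q ^ 2 ∈ D) (h8 : Q * (Q * w) ∈ D) : Goal w Q (Q * w) := by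
  have k3 := w3 hw
  rcases adj hw D hD Q hQ hQ6 h1 h2 h3 h4 h5 h6 h7 h8 with h | h
  · refine ⟨1, Q, Or.inl rfl, Or.inr (Or.inr (Or.inl (by ring))), Or.inr (Or.inl (by rw [h]; ring)),
      Or.inr (Or.inr (Or.inr ?_)), Or.inl h⟩
    linear_combination Q * h
  · refine ⟨Q, Q * w, Or.inr (Or.inr (Or.inl rfl)), Or.inl (by linear_combination h),
      Or.inr (Or.inr (Or.inr ?_)), Or.inr (Or.inl ?_), Or.inl ?_⟩
    · linear_combination (Q * w) * h
    · linear_combination (Q ^ 2 * w ^ 2 + w) * h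
    · linear_combination w * h

private lemma caseC (D : Finset ℂ) (hD : D.card ≤ 7) (Q R : ℂ) (hQ : Q ≠ 0) (hR : R ≠ 0) (hQ6 : Q ^ 6 ≠ 1)
    (hR6 : R ^ 6 ≠ 1) (hQR : Q ≠ R) (hn : R ≠ -Q) (a1 : R ≠ Q * w) (a2 : Q ≠ R * w)
    (h1 : (1 : ℂ) ∈ D) (h2 : w ∈ D) (h3 : w ^ 2 ∈ D) (h4 : Q ∈ D) (h5 : Q * w ∈ D) (h6 : R ∈ D) (h7 : R * w ∈ D)
    (h8 : Q ^ 2 ∈ D) (h9 : Q * R ∈ D) (h10 : R ^ 2 ∈ D) : Goal w Q R := by
  have k3 := w3 hw
  have k6 := w6 hw
  have n0 := wne0 hw
  have n1 := wne1 hw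
  have n2 := w2ne1 hw
  have p0 : (1 : ℂ) ^ 6 = 1 := one_pow 6
  have p2 : (w ^ 2) ^ 6 = 1 := by linear_combination (w ^ 6 + 1) * k6
  have c : ∀ X : ℂ, X ^ 6 ≠ 1 → ∀ a b : ℂ, a ^ 6 = 1 → b ^ 6 = 1 → a ≠ X * b := by
    intro X hX a b ha hb h
    apply hX
    have : a ^ 6 = X ^ 6 * b ^ 6 := by rw [h]; ring
    rw [ha, hb] at this
    linear_combination -this
  have c' : ∀ X : ℂ, X ^ 6 ≠ 1 → ∀ a : ℂ, a ^ 6 = 1 → a ≠ X := by
    intro X hX a ha h
    exact hX (h ▸ ha)
  have hnd : [1, w, w ^ 2, Q, Q * w, R, R * w].Nodup := by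
    simp only [List.nodup_cons, List.mem_cons, List.not_mem_nil, or_false, not_or, List.nodup_nil, and_true,
      not_false_eq_true]
    refine ⟨⟨?_, ?_, ?_, ?_, ?_, ?_⟩, ⟨?_, ?_, ?_, ?_, ?_⟩, ⟨?_, ?_, ?_, ?_⟩, ⟨?_, ?_, ?_⟩, ⟨?_, ?_⟩, ?_⟩
    · exact fun h => n1 h.symm
    · exact fun h => n2 h.symm
    · exact c' Q hQ6 1 p0
    · exact c Q hQ6 1 w p0 k6
    · exact c' R hR6 1 p0
    · exact c R hR6 1 w p0 k6
    · intro h
      have : w * (w - 1) = 0 := by linear_combination -h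
      rcases mul_eq_zero.1 this with h' | h'
      · exact n0 h'
      · exact n1 (by linear_combination h')
    · exact c' Q hQ6 w k6
    · exact c Q hQ6 w w k6 k6
    · exact c' R hR6 w k6
    · exact c R hR6 w w k6 k6
    · exact c' Q hQ6 _ p2
    · exact c Q hQ6 _ w p2 k6
    · exact c' R hR6 _ p2
    · exact c R hR6 _ w p2 k6
    · intro h
      have : Q * (w - 1) = 0 := by linear_combination -h
      rcases mul_eq_zero.1 this with h' | h'
      · exact hQ h'
      · exact n1 (by linear_combination h')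
    · exact hQR
    · exact a2
    · exact fun h => a1 h.symm
    · exact fun h => hQR (mul_right_cancel₀ n0 h)
    · intro h
      have : R * (w - 1) = 0 := by linear_combination -h
      rcases mul_eq_zero.1 this with h' | h'
      · exact hR h'
      · exact n1 (by linear_combination h')
  have hm : ∀ a ∈ [1, w, w ^ 2, Q, Q * w, R, R * w], a ∈ D := by
    intro a ha
    simp only [List.mem_cons, List.not_mem_nil, or_false] at ha
    rcases ha with rfl | rfl | rfl | rfl | rfl | rfl | rfl <;> assumption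
  have q1 := mem7 D hD _ hnd rfl hm _ h8
  have q2 := mem7 D hD _ hnd rfl hm _ h10
  have q3 := mem7 D hD _ hnd rfl hm _ h9
  simp only [List.mem_cons, List.not_mem_nil, or_false] at q1 q2 q3
  have nQ1 : Q ≠ 1 := fun h => hQ6 (by rw [h, p0])
  have nR1 : R ≠ 1 := fun h => hR6 (by rw [h, p0])
  have nQw : Q ≠ w := fun h => hQ6 (by rw [h, k6])
  have nRw : R ≠ w := fun h => hR6 (by rw [h, k6])
  have g3 : (Q * R) ^ 6 = 1 := by
    rcases q3 with h | h | h | h | h | h | h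
    · rw [h, p0]
    · rw [h, k6]
    · rw [h, p2]
    · exact absurd (mul_left_cancel₀ hQ (by linear_combination h : Q * R = Q * 1)) nR1
    · exact absurd (mul_left_cancel₀ hQ h) nRw
    · exact absurd (mul_left_cancel₀ hR (by linear_combination h : R * Q = R * 1)) nQ1
    · exact absurd (mul_left_cancel₀ hR (by linear_combination h : R * Q = R * w)) nQw
  have g1 : Q ^ 2 = w ∨ Q ^ 2 = R ∨ Q ^ 2 = R * w := by
    rcases q1 with h | h | h | h | h | h | h
    · exact absurd (by linear_combination (Q ^ 4 + Q ^ 2 + 1) * h) hQ6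
    · exact Or.inl h
    · exact absurd (by linear_combination (Q ^ 4 + Q ^ 2 * w ^ 2 + w ^ 4) * h + k6) hQ6
    · exact absurd (mul_left_cancel₀ hQ (by linear_combination h : Q * Q = Q * 1)) nQ1
    · exact absurd (mul_left_cancel₀ hQ (by linear_combination h : Q * Q = Q * w)) nQw
    · exact Or.inr (Or.inl h)
    · exact Or.inr (Or.inr h)
  have g2 : R ^ 2 = w ∨ R ^ 2 = Q ∨ R ^ 2 = Q * w := by
    rcases q2 with h | h | h | h | h | h | h
    · exact absurd (by linear_combination (R ^ 4 + R ^ 2 + 1) * h) hR6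
    · exact Or.inl h
    · exact absurd (by linear_combination (R ^ 4 + R ^ 2 * w ^ 2 + w ^ 4) * h + k6) hR6
    · exact Or.inr (Or.inl h)
    · exact Or.inr (Or.inr h)
    · exact absurd (mul_left_cancel₀ hR (by linear_combination h : R * R = R * 1)) nR1
    · exact absurd (mul_left_cancel₀ hR (by linear_combination h : R * R = R * w)) nRw
  have fin6 : ∀ X : ℂ, X ^ 6 ≠ 1 → ∀ g : ℂ, g ^ 6 = 1 → (X * g) ^ 6 = 1 → False := by
    intro X hX g hg h
    rw [mul_pow, hg, mul_one] at h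
    exact hX h
  have m6 : (-1 : ℂ) ^ 6 = 1 := by norm_num
  rcases g1 with u | u | u <;> rcases g2 with v | v | v
  · exfalso
    have : (R - Q) * (R + Q) = 0 := by linear_combination v - u
    rcases mul_eq_zero.1 this with h | h
    · exact hQR (by linear_combination -h)
    · exact hn (by linear_combination h)
  · exfalso
    refine fin6 R hR6 (Q * R) g3 ?_
    have : R * (Q * R) = w := by linear_combination Q * v + u
    rw [this, k6]
  · exfalso
    refine fin6 R hR6 (Q * R) g3 ?_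
    have : R * (Q * R) = w ^ 2 := by linear_combination Q * v + w * u
    rw [this, p2]
  · exfalso
    refine fin6 Q hQ6 (Q * R) g3 ?_
    have : Q * (Q * R) = w := by linear_combination R * u + v
    rw [this, k6]
  · exfalso
    apply hQ6
    have h3 : Q ^ 3 = 1 := mul_left_cancel₀ hQ (by linear_combination (Q ^ 2 + R) * u + v : Q * Q ^ 3 = Q * 1)
    linear_combination (Q ^ 3 + 1) * h3
  · refine ⟨1, Q, Or.inl rfl, Or.inr (Or.inr (Or.inl (by ring))), Or.inr (Or.inr (Or.inr (by rw [u]; ring))), ?_, ?_⟩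
    · have h3 : Q ^ 3 = w := mul_left_cancel₀ hQ (by linear_combination (Q ^ 2 + R) * u + v : Q * Q ^ 3 = Q * w)
      exact Or.inr (Or.inl (by rw [h3]; ring))
    · exact Or.inr (mul_left_cancel₀ hQ (by linear_combination (Q ^ 2 + R) * u + v : Q * Q ^ 3 = Q * w))
  · exfalso
    refine fin6 Q hQ6 (Q * R) g3 ?_
    have : Q * (Q * R) = w ^ 2 := by linear_combination R * u + w * v
    rw [this, p2]
  · refine ⟨1, R, Or.inl rfl, Or.inr (Or.inr (Or.inr (by ring))), Or.inr (Or.inr (Or.inl (by rw [v]; ring))), ?_, ?_⟩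
    · have h3 : R ^ 3 = w := mul_left_cancel₀ hR (by linear_combination (R ^ 2 + Q) * v + u : R * R ^ 3 = R * w)
      exact Or.inr (Or.inl (by rw [h3]; ring))
    · exact Or.inr (mul_left_cancel₀ hR (by linear_combination (R ^ 2 + Q) * v + u : R * R ^ 3 = R * w))
  · exfalso
    apply hQ6
    have h3 : Q ^ 3 = -1 := mul_left_cancel₀ hQ
      (by linear_combination (Q ^ 2 + R * w) * u + w ^ 2 * v + Q * k3 : Q * Q ^ 3 = Q * (-1))
    linear_combination (Q ^ 3 - 1) * h3

private lemma gp1 (D : Finset ℂ) (hD : D.card ≤ 7) (Q R : ℂ) (hQ : Q ≠ 0) (hR : R ≠ 0)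
    (hQR : Q ≠ R) (hn : R ≠ -Q)
    (h1 : (1 : ℂ) ∈ D) (h2 : w ∈ D) (h3 : w ^ 2 ∈ D) (h4 : Q ∈ D) (h5 : Q * w ∈ D) (h6 : R ∈ D) (h7 : R * w ∈ D)
    (h8 : Q ^ 2 ∈ D) (h9 : Q * R ∈ D) (h10 : R ^ 2 ∈ D)
    (n1 : Q ≠ 1) (n2 : Q ≠ w) (n3 : Q ≠ -1) (n4 : Q ≠ -w)
    (m1 : R ≠ 1) (m2 : R ≠ w) (m3 : R ≠ -1) (m4 : R ≠ -w) : Goal w Q R := by
  by_cases hQ6 : Q ^ 6 = 1
  · exfalso
    have hR6 : R ^ 6 ≠ 1 := by
      intro hR6
      have a := sixth hw Q hQ6
      have b := sixth hw R hR6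
      rcases a with a | a | a | a | a | a
      · exact n1 a
      · exact n3 a
      · exact n2 a
      · exact n4 a
      · rcases b with b | b | b | b | b | b
        · exact m1 b
        · exact m3 b
        · exact m2 b
        · exact m4 b
        · exact hQR (a.trans b.symm)
        · exact hn (by rw [a, b])
      · rcases b with b | b | b | b | b | b
        · exact m1 b
        · exact m3 b
        · exact m2 b
        · exact m4 b
        · exact hn (by rw [a, b]; ring)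
        · exact hQR (a.trans b.symm)
    exact caseA hw D hD Q R hR hR6 hQ6 h1 h2 h3 h4 h5 h6 h7 h8 h9 n1 n2 n3 n4
  by_cases hR6 : R ^ 6 = 1
  · exfalso
    exact caseA hw D hD R Q hQ hQ6 hR6 h1 h2 h3 h6 h7 h4 h5 h10 (by rw [mul_comm]; exact h9) m1 m2 m3 m4
  by_cases a1 : R = Q * w
  · subst a1
    exact caseB hw D hD Q hQ hQ6 h1 h2 h3 h4 h5 h7 h8 h9
  by_cases a2 : Q = R * w
  · subst a2
    exact Gc _ _ (caseB hw D hD R hR hR6 h1 h2 h3 h6 h7 h5 h10 (by rw [mul_comm R]; exact h9))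
  exact caseC hw D hD Q R hQ hR hQ6 hR6 hQR hn a1 a2 h1 h2 h3 h4 h5 h6 h7 h8 h9 h10

end

/-- GP -/
theorem hGP : StGP := by
  classical
  intro D w p q r hw hD hp hq hr hprod hneg nqp nqw nrp nrw nqr
  have hp2 : p ^ 2 ≠ 0 := pow_ne_zero 2 hp
  have mA : ∀ x : ℂ, (x = p ∨ x = p * w ∨ x = q ∨ x = r) → x ∈ ({p, p * w, q, r} : Finset ℂ) := by
    intro x hx
    simpa only [Finset.mem_insert, Finset.mem_singleton] using hx
  have m : ∀ x y : ℂ, (x = p ∨ x = p * w ∨ x = q ∨ x = r) → (y = p ∨ y = p * w ∨ y = q ∨ y = r) →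
      ∀ z, z * p ^ 2 = x * y → z ∈ D.image fun z => z / p ^ 2 := by
    intro x y hx hy z hz
    refine Finset.mem_image.2 ⟨x * y, hprod x (mA x hx) y (mA y hy), ?_⟩
    rw [← hz, mul_div_assoc, div_self hp2, mul_one]
  have ng : ∀ x y : ℂ, (x = p ∨ x = p * w ∨ x = q ∨ x = r) → (y = p ∨ y = p * w ∨ y = q ∨ y = r) → y ≠ -x := by
    intro x y hx hy h
    exact hneg x (mA x hx) (h ▸ mA y hy)
  have a1 : p = p ∨ p = p * w ∨ p = q ∨ p = r := Or.inl rfl
  have a2 : p * w = p ∨ p * w = p * w ∨ p * w = q ∨ p * w = r := Or.inr (Or.inl rfl)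
  have a3 : q = p ∨ q = p * w ∨ q = q ∨ q = r := Or.inr (Or.inr (Or.inl rfl))
  have a4 : r = p ∨ r = p * w ∨ r = q ∨ r = r := Or.inr (Or.inr (Or.inr rfl))
  obtain ⟨Q, rfl⟩ : ∃ Q, q = p * Q := ⟨q / p, by field_simp⟩
  obtain ⟨R, rfl⟩ : ∃ R, r = p * R := ⟨r / p, by field_simp⟩
  have hQ : Q ≠ 0 := right_ne_zero_of_mul hq
  have hR : R ≠ 0 := right_ne_zero_of_mul hr
  have key := gp1 hw (D.image fun z => z / p ^ 2) (Finset.card_image_le.trans hD) Q R hQ hR
    (fun h => nqr (by rw [h])) (fun h => ng _ _ a3 a4 (by rw [h]; ring))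
    (m _ _ a1 a1 _ (by ring)) (m _ _ a1 a2 _ (by ring)) (m _ _ a2 a2 _ (by ring)) (m _ _ a1 a3 _ (by ring))
    (m _ _ a2 a3 _ (by ring)) (m _ _ a1 a4 _ (by ring)) (m _ _ a2 a4 _ (by ring)) (m _ _ a3 a3 _ (by ring))
    (m _ _ a3 a4 _ (by ring)) (m _ _ a4 a4 _ (by ring))
    (fun h => nqp (by rw [h, mul_one])) (fun h => nqw (by rw [h])) (fun h => ng _ _ a1 a3 (by rw [h]; ring))
    (fun h => ng _ _ a2 a3 (by rw [h]; ring))
    (fun h => nrp (by rw [h, mul_one])) (fun h => nrw (by rw [h])) (fun h => ng _ _ a1 a4 (by rw [h]; ring))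
    (fun h => ng _ _ a2 a4 (by rw [h]; ring))
  obtain ⟨x, ρ, h1, h2, h3, h4, h5⟩ := key
  have conv : ∀ z : ℂ, P w Q R z → p * z ∈ ({p, p * w, p * Q, p * R} : Finset ℂ) := by
    intro z hz
    apply mA
    rcases hz with h | h | h | h
    · exact Or.inl (by rw [h, mul_one])
    · exact Or.inr (Or.inl (by rw [h]))
    · exact Or.inr (Or.inr (Or.inl (by rw [h])))
    · exact Or.inr (Or.inr (Or.inr (by rw [h])))
  refine ⟨p * x, ρ, conv _ h1, ?_, ?_, ?_, h5⟩
  · rw [mul_assoc]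
    exact conv _ h2
  · rw [mul_assoc]
    exact conv _ h3
  · rw [mul_assoc]
    exact conv _ h4

end Pool.Agent.Helper89.BR
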